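import Pool.Agent.MP_e058c8_al.Final
import Pool.Agent.MP_e058c8_al.StdAction

/-!
Every normal subgroup of the outer automorphism group of the fundamental group of the closed
orientable surface of genus `g ≥ 2` is the kernel `K Γ` of `Out π → Out (π ⧸ Γ)` for some
characteristic subgroup `Γ` of `π`.
-/

namespace Pool.Agent.Results.MP_e058c8_al.NormalSubgroupsAreKernels

open Pool.Agent.MP_e058c8_al

theorem result (g : ℕ) (hg : 2 ≤ g) (N : Subgroup (Out (SurfaceGroup g))) (hN : N.Normal) :
    ∃ (Γ : Subgroup (SurfaceGroup g)) (_ : Γ.Characteristic), K Γ = N := by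
  obtain ⟨act, h⟩ := exists_surfaceAction g hg
  exact exists_K_eq h N hN

end Pool.Agent.Results.MP_e058c8_al.NormalSubgroupsAreKernels
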